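import Pool.Agent.H81.WK.Cell

/-! The dual nullity `c W = dim E - dim sp (Wᶜ)` (draft; to be adapted to the frames). -/

set_option linter.unusedSectionVars false

open Module Submodule H15

namespace H30.LR

variable {ι : Type*} [Fintype ι] {E : Type*} [AddCommGroup E] [Module ℝ E]
  [FiniteDimensional ℝ E]

/-- dual nullity. -/
noncomputable def cc (w : ι → E) (W : Set ι) : ℕ := finrank ℝ E - finrank ℝ (sp w Wᶜ)

theorem cc_add (w : ι → E) (W : Set ι) : cc w W + finrank ℝ (sp w Wᶜ) = finrank ℝ E := by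
  have := Submodule.finrank_le (sp w Wᶜ)
  unfold cc
  omega

theorem cc_mono {w : ι → E} {X Y : Set ι} (h : X ⊆ Y) : cc w X ≤ cc w Y := by
  have h1 := cc_add w X
  have h2 := cc_add w Y
  have h3 : finrank ℝ (sp w Yᶜ) ≤ finrank ℝ (sp w Xᶜ) :=
    Submodule.finrank_mono (sp_mono (Set.compl_subset_compl.2 h))
  omega

theorem cc_super {w : ι → E} (X Y : Set ι) : cc w X + cc w Y ≤ cc w (X ∪ Y) + cc w (X ∩ Y) := by
  have h1 := cc_add w X
  have h2 := cc_add w Y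
  have h3 := cc_add w (X ∪ Y)
  have h4 := cc_add w (X ∩ Y)
  have h5 := Submodule.finrank_sup_add_finrank_inf_eq (sp w Xᶜ) (sp w Yᶜ)
  have h6 : sp w (X ∩ Y)ᶜ = sp w Xᶜ ⊔ sp w Yᶜ := by rw [Set.compl_inter, sp_union]
  have h7 : sp w (X ∪ Y)ᶜ ≤ sp w Xᶜ ⊓ sp w Yᶜ := by
    rw [Set.compl_union]
    exact le_inf (sp_mono Set.inter_subset_left) (sp_mono Set.inter_subset_right)
  have h8 := Submodule.finrank_mono h7
  rw [h6] at h4
  omega

theorem cc_insert_le (w : ι → E) (W : Set ι) (e : ι) : cc w (insert e W) ≤ cc w W + 1 := by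
  have h1 := cc_add w W
  have h2 := cc_add w (insert e W)
  have h3 : sp w Wᶜ ≤ sp w (insert e (insert e W)ᶜ) := by
    refine sp_mono ?_
    intro i hi
    by_cases h : i = e
    · exact Or.inl h
    · exact Or.inr (by rintro (h' | h'); exacts [h h', hi h'])
  have h4 := Submodule.finrank_mono h3
  have h5 : finrank ℝ (sp w (insert e (insert e W)ᶜ)) ≤ finrank ℝ (sp w (insert e W)ᶜ) + 1 := by
    rw [sp_insert, add_comm]
    have h6 := Submodule.finrank_add_le_finrank_add_finrank (span ℝ {w e}) (sp w (insert e W)ᶜ)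
    have h7 : finrank ℝ (span ℝ {w e}) ≤ 1 := by
      refine (finrank_span_le_card _).trans ?_
      simp
    omega
  omega

theorem cc_union_le (w : ι → E) (W Z : Set ι) : cc w (W ∪ Z) ≤ cc w W + Z.ncard := by
  classical
  have key : ∀ n : ℕ, ∀ Z : Set ι, Z.ncard = n → cc w (W ∪ Z) ≤ cc w W + n := by
    intro n
    induction n with
    | zero =>
      intro Z hZ
      rw [Set.ncard_eq_zero (Set.toFinite _)] at hZ
      rw [hZ, Set.union_empty, add_zero]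
    | succ n ih =>
      intro Z hZ
      obtain ⟨e, Z', he, rfl, hZ'⟩ := (Set.ncard_eq_succ (Set.toFinite _)).1 hZ
      rw [Set.union_insert]
      have h1 := cc_insert_le w (W ∪ Z') e
      have h2 := ih Z' hZ'
      omega
  exact key _ Z rfl

theorem cc_eq_zero_iff {w : ι → E} {W : Set ι} : cc w W = 0 ↔ sp w Wᶜ = ⊤ := by
  have h1 := cc_add w W
  constructor
  · intro h
    exact Submodule.eq_top_of_finrank_eq (by omega)
  · intro h
    rw [h, finrank_top] at h1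
    omega

theorem cc_le_ncard {w : ι → E} (hs : sp w Set.univ = ⊤) (W : Set ι) : cc w W ≤ W.ncard := by
  have h1 := cc_union_le w ∅ W
  have h2 : cc w (∅ : Set ι) = 0 := by rw [cc_eq_zero_iff, Set.compl_empty, hs]
  rw [Set.empty_union] at h1
  omega

/-- **ROUND** (submodularity part). -/
theorem round {w : ι → E} {K P N A : Set ι} {n : ℕ} (hPN : Disjoint P N)
    (hA : A ⊆ (P ∪ N)ᶜ) (h0 : cc w (P ∪ N)ᶜ = 0)
    (hf : n + A.ncard ≤ cc w (P ∪ A) + cc w (N ∪ A)) :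
    2 * cc w K + n ≤ cc w (K ∪ (P ∪ A)) + cc w (K ∪ (N ∪ A)) + cc w (K ∩ (P ∪ N)) := by
  have h1 := cc_super (w := w) K (P ∪ A)
  have h2 := cc_super (w := w) K (N ∪ A)
  have h3 := cc_super (w := w) (K ∩ (P ∪ A)) (K ∩ (N ∪ A))
  have h4 : K ∩ (P ∪ A) ∪ K ∩ (N ∪ A) = (K ∩ (P ∪ N)) ∪ (K ∩ A) := by
    ext i; simp only [Set.mem_union, Set.mem_inter_iff]; tauto
  have h5 : K ∩ (P ∪ A) ∩ (K ∩ (N ∪ A)) ⊆ (P ∪ N)ᶜ := by
    rintro i ⟨⟨_, h | h⟩, ⟨_, h' | h'⟩⟩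
    · exact absurd h' (Set.disjoint_left.1 hPN h)
    · exact hA h'
    · exact hA h
    · exact hA h
  have h6 := cc_mono (w := w) h5
  rw [h0] at h6
  have h7 := cc_union_le w (K ∩ (P ∪ N)) (K ∩ A)
  have h8 : (K ∩ A).ncard ≤ A.ncard := Set.ncard_le_ncard Set.inter_subset_right (Set.toFinite _)
  rw [h4] at h3
  omega

/-- FAIL in terms of `cc`. -/
theorem fail {w : ι → E} {κ : ℕ} (hb : Bdd w κ) {P N : Set ι} (h : SVec w P N)
    (hsp : sp w (P ∪ N) = ⊤) {n : ℕ} (hn : κ + n ≤ finrank ℝ E) :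
    ∃ A : Set ι, A ⊆ (P ∪ N)ᶜ ∧ n + A.ncard ≤ cc w (P ∪ A) + cc w (N ∪ A) := by
  obtain ⟨E', hd, hE⟩ := H81.WK.exists_fail hb h hsp
  refine ⟨(P ∪ N)ᶜ \ E', Set.sdiff_subset, ?_⟩
  have hPN := h.disjoint
  have e1 : (P ∪ ((P ∪ N)ᶜ \ E'))ᶜ = N ∪ E' := by
    ext i
    have a1 : i ∈ E' → i ∉ P ∪ N := fun hi hi' => Set.disjoint_left.1 hd hi hi'
    have a2 : i ∈ P → i ∉ N := fun hi hi' => Set.disjoint_left.1 hPN hi hi'
    simp only [Set.mem_union, Set.mem_sdiff, Set.mem_compl_iff] at a1 ⊢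
    tauto
  have e2 : (N ∪ ((P ∪ N)ᶜ \ E'))ᶜ = P ∪ E' := by
    ext i
    have a1 : i ∈ E' → i ∉ P ∪ N := fun hi hi' => Set.disjoint_left.1 hd hi hi'
    have a2 : i ∈ P → i ∉ N := fun hi hi' => Set.disjoint_left.1 hPN hi hi'
    simp only [Set.mem_union, Set.mem_sdiff, Set.mem_compl_iff] at a1 ⊢
    tauto
  have h1 := cc_add w (P ∪ ((P ∪ N)ᶜ \ E'))
  have h2 := cc_add w (N ∪ ((P ∪ N)ᶜ \ E'))
  rw [e1] at h1
  rw [e2] at h2
  omega

end H30.LR
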