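import Pool.Agent.H81.LR.Step

/-! COVER in levels: the price is `t + 3 j (L + 1)` with `2 ^ L * t ≤ |C₀|`. -/

set_option linter.unusedSectionVars false

open Module Submodule H15 H81.WK H81.LR

namespace H30.LRF

variable {ι : Type*} [Fintype ι] {E : Type*} [AddCommGroup E] [Module ℝ E]
  [FiniteDimensional ℝ E] {w : ι → E}

/-- the coloops of the family restricted to `C`. -/
def Co (w : ι → E) (C : Set ι) : Set ι := {e | e ∈ C ∧ cc w (Cᶜ ∪ {e}) ≠ 0}

theorem co_cc {C : Set ι} (hsp : cc w Cᶜ = 0) : ∀ R : Set ι, R ⊆ Co w C →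
    cc w (Cᶜ ∪ R) = R.ncard := by
  classical
  intro R
  induction R, Set.toFinite R using Set.Finite.induction_on with
  | empty => intro _; rw [Set.union_empty, hsp, Set.ncard_empty]
  | @insert a s ha hs ih =>
    intro hR
    have h0 := ih ((Set.subset_insert _ _).trans hR)
    have h1 : a ∈ C ∧ cc w (Cᶜ ∪ {a}) ≠ 0 := hR (Set.mem_insert _ _)
    have h2 := cc_super w (Cᶜ ∪ s) (Cᶜ ∪ {a})
    have e1 : Cᶜ ∪ s ∪ (Cᶜ ∪ {a}) = Cᶜ ∪ insert a s := by
      ext i; simp only [Set.mem_union, Set.mem_insert_iff, Set.mem_singleton_iff]; tauto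
    have e2 : (Cᶜ ∪ s) ∩ (Cᶜ ∪ {a}) ⊆ Cᶜ := by
      rintro i ⟨h3 | h3, h4 | h4⟩
      · exact h3
      · exact h3
      · exact h4
      · exact absurd (h4 ▸ h3) ha
    have h3 := cc_mono (w := w) e2
    have h4 := cc_union_le (w := w) Cᶜ (insert a s)
    rw [Set.ncard_insert_of_notMem ha hs] at h4 ⊢
    rw [e1] at h2
    omega

theorem co_insert {C : Set ι} (hsp : cc w Cᶜ = 0) {g : ι} (hg : g ∉ C) :
    Co w (insert g C) ⊆ Co w C := by
  rintro e ⟨he, he'⟩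
  rcases he with rfl | he
  · exfalso
    apply he'
    have : (insert e C)ᶜ ∪ {e} ⊆ Cᶜ := by
      rintro i (hi | hi)
      · exact fun h => hi (Or.inr h)
      · rw [Set.mem_singleton_iff.1 hi]; exact hg
    have := cc_mono (w := w) this
    omega
  · refine ⟨he, fun h => he' ?_⟩
    have : (insert g C)ᶜ ∪ {e} ⊆ Cᶜ ∪ {e} :=
      Set.union_subset_union_left _ (Set.compl_subset_compl.2 (Set.subset_insert _ _))
    have := cc_mono (w := w) this
    omega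

theorem cc_compl_insert {C : Set ι} (hsp : cc w Cᶜ = 0) (g : ι) : cc w (insert g C)ᶜ = 0 := by
  have := cc_mono (w := w) (Set.compl_subset_compl.2 (Set.subset_insert g C))
  omega

/-- a step at level `q`. -/
theorem co_step {j κ f s q : ℕ} (hF : Fam w j κ f s) (hs : s ≤ κ + f) {C H : Set ι}
    (hCH : Disjoint C H) (hH : 2 * H.ncard + 5 ≤ κ + f) (hsp : cc w Cᶜ = 0) (hq : 1 ≤ q)
    (hbig : 3 * j * q < (Co w C).ncard) :
    ∃ g, g ∉ C ∧ g ∉ H ∧ (Co w (insert g C)).ncard + q ≤ (Co w C).ncard := by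
  classical
  obtain ⟨R, hR1, hR2, hR3⟩ := exists_blocks (Z := Co w C) (r := j) (m := 3 * q) (by nlinarith)
  have hCc : κ + j + 1 ≤ C.ncard := by
    have h1 := cc_add w Cᶜ
    rw [compl_compl] at h1
    have h2 : finrank ℝ (sp w C) ≤ C.ncard := finrank_sp_le
    have h3 := hF.dim
    omega
  have hcR : ∀ i, cc w (Cᶜ ∪ R i) = j := fun i => by rw [co_cc hsp (R i) (hR1 i), hR2 i]
  obtain ⟨g, hg1, hg2, hg3⟩ := step hF hs hCH hH hCc (by omega) R
    (fun i e he => (hR1 i he).1) (fun i => by rw [hR2 i]; omega) (fun i => (hcR i).ge)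
  refine ⟨g, hg1, hg2, ?_⟩
  have hsp' := cc_compl_insert hsp g
  have hloss : ∀ i, w g ∉ sp w (C \ R i) → ∃ e ∈ R i, e ∉ Co w (insert g C) := by
    intro i hi
    by_contra hcon
    push Not at hcon
    have h1 := co_cc hsp' (R i) hcon
    have h2 := cc_insert_compl hg1 (fun e he => (hR1 i he).1) hi
    rw [hcR i, h1, hR2 i] at h2
    omega
  set G : Set (Fin (3 * q)) := {i | w g ∉ sp w (C \ R i)} with hG
  have hch : ∀ i : Fin (3 * q), ∃ e, i ∈ G → e ∈ R i ∧ e ∉ Co w (insert g C) := by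
    intro i
    by_cases hi : i ∈ G
    · obtain ⟨e, he, he'⟩ := hloss i hi
      exact ⟨e, fun _ => ⟨he, he'⟩⟩
    · exact ⟨g, fun h => absurd h hi⟩
  choose φ hφ using hch
  have h1 : G.ncard ≤ (Co w C \ Co w (insert g C)).ncard := by
    refine Set.ncard_le_ncard_of_injOn φ (fun i hi => ⟨hR1 i (hφ i hi).1, (hφ i hi).2⟩) ?_
      (Set.toFinite _)
    intro i hi i' hi' h
    by_contra hne
    have := Set.disjoint_left.1 (hR3 i i' hne) (hφ i hi).1
    exact this (h ▸ (hφ i' hi').1)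
  have h2 := Set.ncard_sdiff_add_ncard_of_subset (co_insert hsp hg1) (Set.toFinite _)
  omega

/-- a single step. -/
theorem co_single {C H : Set ι} (hsp : cc w Cᶜ = 0)
    (hHe : ∀ e, cc w (insert e H) = 0) (hbig : 0 < (Co w C).ncard) :
    ∃ g, g ∉ C ∧ g ∉ H ∧ (Co w (insert g C)).ncard + 1 ≤ (Co w C).ncard := by
  classical
  obtain ⟨e, he⟩ := (Set.ncard_pos (Set.toFinite _)).1 hbig
  have h1 := cc_eq_zero_iff.1 (hHe e)
  obtain ⟨g, hg, hg'⟩ : ∃ g ∈ (insert e H)ᶜ, w g ∉ sp w (C \ {e}) := by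
    by_contra hcon
    push Not at hcon
    have h2 : sp w (insert e H)ᶜ ≤ sp w (C \ {e}) := sp_le.2 hcon
    rw [h1, top_le_iff] at h2
    apply he.2
    rw [cc_eq_zero_iff]
    have : (Cᶜ ∪ {e})ᶜ = C \ {e} := by
      rw [Set.compl_union, compl_compl]; rfl
    rw [this, h2]
  have hge : g ≠ e := fun h => hg (Or.inl h)
  have hgH : g ∉ H := fun h => hg (Or.inr h)
  have hgC : g ∉ C := fun h => hg' (mem_sp ⟨h, hge⟩)
  refine ⟨g, hgC, hgH, ?_⟩
  have h2 := cc_insert_compl hgC (Set.singleton_subset_iff.2 he.1) hg'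
  have h3 := cc_union_le (w := w) Cᶜ {e}
  rw [Set.ncard_singleton, hsp] at h3
  have h4 : e ∉ Co w (insert g C) := fun h => h.2 (by omega)
  have h5 : Co w (insert g C) ⊆ Co w C \ {e} := by
    intro i hi
    refine ⟨co_insert hsp hgC hi, ?_⟩
    rintro rfl
    exact h4 hi
  have h6 := Set.ncard_le_ncard h5 (Set.toFinite _)
  have h7 := Set.ncard_sdiff_singleton_lt_of_mem he (Set.toFinite _)
  omega

/-- iteration of steps. -/
theorem co_iter {H : Set ι} {q T : ℕ}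
    (hstep : ∀ C : Set ι, Disjoint C H → cc w Cᶜ = 0 → T < (Co w C).ncard →
      ∃ g, g ∉ C ∧ g ∉ H ∧ (Co w (insert g C)).ncard + q ≤ (Co w C).ncard) :
    ∀ N : ℕ, ∀ C : Set ι, Disjoint C H → cc w Cᶜ = 0 → (Co w C).ncard ≤ T + q * N →
      ∃ C' : Set ι, C ⊆ C' ∧ Disjoint C' H ∧ cc w C'ᶜ = 0 ∧ (Co w C').ncard ≤ T ∧
        C'.ncard ≤ C.ncard + N := by
  classical
  intro N
  induction N with
  | zero =>
    intro C h1 h2 h3
    exact ⟨C, le_rfl, h1, h2, by simpa using h3, by omega⟩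
  | succ N ih =>
    intro C h1 h2 h3
    rcases Nat.lt_or_ge T (Co w C).ncard with h | h
    · obtain ⟨g, hg1, hg2, hg3⟩ := hstep C h1 h2 h
      have h4 : Disjoint (insert g C) H := by
        rw [Set.disjoint_left]
        rintro i (rfl | hi) hi'
        · exact hg2 hi'
        · exact Set.disjoint_left.1 h1 hi hi'
      obtain ⟨C', c1, c2, c3, c4, c5⟩ := ih (insert g C) h4 (cc_compl_insert h2 g)
        (by rw [Nat.mul_succ] at h3; omega)
      refine ⟨C', (Set.subset_insert _ _).trans c1, c2, c3, c4, ?_⟩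
      rw [Set.ncard_insert_of_notMem hg1 (Set.toFinite _)] at c5
      omega
    · exact ⟨C, le_rfl, h1, h2, h, by omega⟩

/-- the levels `L, L-1, .., 0`. -/
theorem co_levels {j κ f s : ℕ} (hF : Fam w j κ f s) (hs : s ≤ κ + f) {H : Set ι}
    (hH : 2 * H.ncard + 5 ≤ κ + f) : ∀ L : ℕ, ∀ C : Set ι, Disjoint C H → cc w Cᶜ = 0 →
      (Co w C).ncard ≤ 3 * j * 2 ^ L →
      ∃ C' : Set ι, C ⊆ C' ∧ Disjoint C' H ∧ cc w C'ᶜ = 0 ∧ (Co w C').ncard ≤ 3 * j ∧
        C'.ncard ≤ C.ncard + 3 * j * L := by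
  intro L
  induction L with
  | zero =>
    intro C h1 h2 h3
    exact ⟨C, le_rfl, h1, h2, by simpa using h3, by omega⟩
  | succ L ih =>
    intro C h1 h2 h3
    obtain ⟨C', c1, c2, c3, c4, c5⟩ := co_iter (q := 2 ^ L) (T := 3 * j * 2 ^ L)
      (fun C h1 h2 h => co_step hF hs h1 hH h2 Nat.one_le_two_pow h) (3 * j) C h1 h2
      (by rw [pow_succ] at h3; nlinarith)
    obtain ⟨C'', d1, d2, d3, d4, d5⟩ := ih C' c2 c3 c4
    exact ⟨C'', c1.trans d1, d2, d3, d4, by rw [Nat.mul_succ]; omega⟩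

/-- **COVER in levels**. -/
theorem cover2 {j κ f s : ℕ} (L : ℕ) (hF : Fam w j κ f s) (hj : 1 ≤ j) (hs : s ≤ κ + f)
    {C₀ H : Set ι} (hCH : Disjoint C₀ H) (hH : 2 * H.ncard + 5 ≤ κ + f) (hsp : cc w C₀ᶜ = 0)
    (hHe : ∀ e, cc w (insert e H) = 0) :
    ∃ C : Set ι, ∃ t : ℕ, C₀ ⊆ C ∧ Disjoint C H ∧ (∀ e ∈ C, cc w (Cᶜ ∪ {e}) = 0) ∧
      2 ^ L * t ≤ C₀.ncard ∧ C.ncard ≤ C₀.ncard + t + 3 * j * (L + 1) := by
  classical
  have hp : 0 < 2 ^ L := by positivity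
  have hCo : (Co w C₀).ncard ≤ C₀.ncard := Set.ncard_le_ncard (fun e he => he.1) (Set.toFinite _)
  have hdiv := Nat.div_add_mod C₀.ncard (2 ^ L)
  have hmod := Nat.mod_lt C₀.ncard hp
  obtain ⟨C₁, a1, a2, a3, a4, a5⟩ := co_iter (q := 2 ^ L) (T := 3 * j * 2 ^ L)
    (fun C h1 h2 h => co_step hF hs h1 hH h2 Nat.one_le_two_pow h) (C₀.ncard / 2 ^ L) C₀ hCH hsp
    (by
      have : 2 ^ L ≤ 3 * j * 2 ^ L := Nat.le_mul_of_pos_left _ (by omega)
      omega)
  obtain ⟨C₂, b1, b2, b3, b4, b5⟩ := co_levels hF hs hH L C₁ a2 a3 a4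
  obtain ⟨C₃, d1, d2, d3, d4, d5⟩ := co_iter (q := 1) (T := 0)
    (fun C h1 h2 h => co_single h2 hHe h) (3 * j) C₂ b2 b3 (by omega)
  refine ⟨C₃, C₀.ncard / 2 ^ L, (a1.trans b1).trans d1, d2, ?_, by omega,
    by rw [Nat.mul_succ]; omega⟩
  intro e he
  by_contra hne
  have : e ∈ Co w C₃ := ⟨he, hne⟩
  have h1 : (Co w C₃) = ∅ := (Set.ncard_eq_zero (Set.toFinite _)).1 (Nat.le_zero.1 d4)
  rw [h1] at this
  exact this

end H30.LRF
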