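import Pool.Agent.H81.LR.Step

/-! COVER, geometric version (the frames `halve` and `coverG`). -/

set_option linter.unusedSectionVars false

open Module Submodule H15 H81.WK H81.LR

namespace H30.LRG

variable {ι : Type*} [Fintype ι] {E : Type*} [AddCommGroup E] [Module ℝ E]
  [FiniteDimensional ℝ E] {w : ι → E}

/-- the coloops of the restriction to `C` (`H81.LR.Co`, by `rfl`). -/
def Co (w : ι → E) (C : Set ι) : Set ι := {e | e ∈ C ∧ cc w (Cᶜ ∪ {e}) ≠ 0}

theorem co_cc {C : Set ι} (hsp : cc w Cᶜ = 0) : ∀ R : Set ι, R ⊆ Co w C →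
    cc w (Cᶜ ∪ R) = R.ncard := by
  classical
  intro R
  induction R, Set.toFinite R using Set.Finite.induction_on with
  | empty => intro _; rw [Set.union_empty, hsp, Set.ncard_empty]
  | @insert a s ha hs ih =>
    intro hR
    have h0 := ih ((Set.subset_insert _ _).trans hR)
    have h1 : a ∈ C ∧ cc w (Cᶜ ∪ {a}) ≠ 0 := hR (Set.mem_insert _ _)
    have h2 := cc_super w (Cᶜ ∪ s) (Cᶜ ∪ {a})
    have e1 : Cᶜ ∪ s ∪ (Cᶜ ∪ {a}) = Cᶜ ∪ insert a s := by
      ext i; simp only [Set.mem_union, Set.mem_insert_iff, Set.mem_singleton_iff]; tauto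
    have e2 : (Cᶜ ∪ s) ∩ (Cᶜ ∪ {a}) ⊆ Cᶜ := by
      rintro i ⟨h3 | h3, h4 | h4⟩
      · exact h3
      · exact h3
      · exact h4
      · exact absurd (h4 ▸ h3) ha
    have h3 := cc_mono (w := w) e2
    have h4 := cc_union_le (w := w) Cᶜ (insert a s)
    rw [Set.ncard_insert_of_notMem ha hs] at h4 ⊢
    rw [e1] at h2
    omega

theorem co_insert {C : Set ι} (hsp : cc w Cᶜ = 0) {g : ι} (hg : g ∉ C) :
    Co w (insert g C) ⊆ Co w C := by
  rintro e ⟨he, he'⟩
  rcases he with rfl | he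
  · exfalso
    apply he'
    have : (insert e C)ᶜ ∪ {e} ⊆ Cᶜ := by
      rintro i (hi | hi)
      · exact fun h => hi (Or.inr h)
      · rw [Set.mem_singleton_iff.1 hi]; exact hg
    have := cc_mono (w := w) this
    omega
  · refine ⟨he, fun h => he' ?_⟩
    have : (insert g C)ᶜ ∪ {e} ⊆ Cᶜ ∪ {e} :=
      Set.union_subset_union_left _ (Set.compl_subset_compl.2 (Set.subset_insert _ _))
    have := cc_mono (w := w) this
    omega

theorem cc_compl_insert {C : Set ι} (hsp : cc w Cᶜ = 0) (g : ι) : cc w (insert g C)ᶜ = 0 := by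
  have := cc_mono (w := w) (Set.compl_subset_compl.2 (Set.subset_insert g C))
  omega

/-- a step with `m` blocks. -/
theorem co_step {j κ f s m : ℕ} (hF : Fam w j κ f s) (hs : s ≤ κ + f) {C H : Set ι}
    (hCH : Disjoint C H) (hH : 2 * H.ncard + 5 ≤ κ + f) (hsp : cc w Cᶜ = 0) (hm : 1 ≤ m)
    (hbig : j * m ≤ (Co w C).ncard) :
    ∃ g, g ∉ C ∧ g ∉ H ∧ 3 * (Co w (insert g C)).ncard + m ≤ 3 * (Co w C).ncard := by
  classical
  obtain ⟨R, hR1, hR2, hR3⟩ := exists_blocks (Z := Co w C) (r := j) (m := m) hbig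
  have hCc : κ + j + 1 ≤ C.ncard := by
    have h1 := cc_add w Cᶜ
    rw [compl_compl] at h1
    have h2 : finrank ℝ (sp w C) ≤ C.ncard := finrank_sp_le
    have h3 := hF.dim
    omega
  have hcR : ∀ i, cc w (Cᶜ ∪ R i) = j := fun i => by rw [co_cc hsp (R i) (hR1 i), hR2 i]
  obtain ⟨g, hg1, hg2, hg3⟩ := step hF hs hCH hH hCc hm R
    (fun i e he => (hR1 i he).1) (fun i => by rw [hR2 i]; omega) (fun i => (hcR i).ge)
  refine ⟨g, hg1, hg2, ?_⟩
  have hsp' := cc_compl_insert hsp g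
  have hloss : ∀ i, w g ∉ sp w (C \ R i) → ∃ e ∈ R i, e ∉ Co w (insert g C) := by
    intro i hi
    by_contra hcon
    push Not at hcon
    have h1 := co_cc hsp' (R i) hcon
    have h2 := cc_insert_compl hg1 (fun e he => (hR1 i he).1) hi
    rw [hcR i, h1, hR2 i] at h2
    omega
  set G : Set (Fin m) := {i | w g ∉ sp w (C \ R i)} with hG
  have hch : ∀ i : Fin m, ∃ e, i ∈ G → e ∈ R i ∧ e ∉ Co w (insert g C) := by
    intro i
    by_cases hi : i ∈ G
    · obtain ⟨e, he, he'⟩ := hloss i hi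
      exact ⟨e, fun _ => ⟨he, he'⟩⟩
    · exact ⟨g, fun h => absurd h hi⟩
  choose φ hφ using hch
  have h1 : G.ncard ≤ (Co w C \ Co w (insert g C)).ncard := by
    refine Set.ncard_le_ncard_of_injOn φ (fun i hi => ⟨hR1 i (hφ i hi).1, (hφ i hi).2⟩) ?_
      (Set.toFinite _)
    intro i hi i' hi' h
    by_contra hne
    have := Set.disjoint_left.1 (hR3 i i' hne) (hφ i hi).1
    exact this (h ▸ (hφ i' hi').1)
  have h2 := Set.ncard_sdiff_add_ncard_of_subset (co_insert hsp hg1) (Set.toFinite _)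
  omega

/-- a single step. -/
theorem co_single {C H : Set ι} (hsp : cc w Cᶜ = 0)
    (hHe : ∀ e, cc w (insert e H) = 0) (hbig : 0 < (Co w C).ncard) :
    ∃ g, g ∉ C ∧ g ∉ H ∧ (Co w (insert g C)).ncard + 1 ≤ (Co w C).ncard := by
  classical
  obtain ⟨e, he⟩ := (Set.ncard_pos (Set.toFinite _)).1 hbig
  have h1 := cc_eq_zero_iff.1 (hHe e)
  obtain ⟨g, hg, hg'⟩ : ∃ g ∈ (insert e H)ᶜ, w g ∉ sp w (C \ {e}) := by
    by_contra hcon
    push Not at hcon
    have h2 : sp w (insert e H)ᶜ ≤ sp w (C \ {e}) := sp_le.2 hcon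
    rw [h1, top_le_iff] at h2
    apply he.2
    rw [cc_eq_zero_iff]
    have : (Cᶜ ∪ {e})ᶜ = C \ {e} := by
      rw [Set.compl_union, compl_compl]; rfl
    rw [this, h2]
  have hge : g ≠ e := fun h => hg (Or.inl h)
  have hgH : g ∉ H := fun h => hg (Or.inr h)
  have hgC : g ∉ C := fun h => hg' (mem_sp ⟨h, hge⟩)
  refine ⟨g, hgC, hgH, ?_⟩
  have h2 := cc_insert_compl hgC (Set.singleton_subset_iff.2 he.1) hg'
  have h3 := cc_union_le (w := w) Cᶜ {e}
  rw [Set.ncard_singleton, hsp] at h3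
  have h4 : e ∉ Co w (insert g C) := fun h => h.2 (by omega)
  have h5 : Co w (insert g C) ⊆ Co w C \ {e} := by
    intro i hi
    refine ⟨co_insert hsp hgC hi, ?_⟩
    rintro rfl
    exact h4 hi
  have h6 := Set.ncard_le_ncard h5 (Set.toFinite _)
  have h7 := Set.ncard_sdiff_singleton_lt_of_mem he (Set.toFinite _)
  omega

theorem disj_insert {C H : Set ι} (h1 : Disjoint C H) {g : ι} (hg : g ∉ H) :
    Disjoint (insert g C) H := by
  rw [Set.disjoint_left]
  rintro i (rfl | hi) hi'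
  · exact hg hi'
  · exact Set.disjoint_left.1 h1 hi hi'

/-- **halving**. -/
theorem halve {j κ f s : ℕ} (hF : Fam w j κ f s) (hj : 1 ≤ j) (hs : s ≤ κ + f) {C₀ H : Set ι}
    (hCH : Disjoint C₀ H) (hH : 2 * H.ncard + 5 ≤ κ + f) (hsp : cc w C₀ᶜ = 0) :
    ∃ C : Set ι, C₀ ⊆ C ∧ Disjoint C H ∧ C.ncard ≤ C₀.ncard + 3 * j ∧
      2 * (Co w C).ncard ≤ (Co w C₀).ncard + j := by
  classical
  set u := (Co w C₀).ncard with hu
  have key : ∀ t : ℕ, ∃ C : Set ι, C₀ ⊆ C ∧ Disjoint C H ∧ cc w Cᶜ = 0 ∧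
      C.ncard ≤ C₀.ncard + t ∧ (Co w C).ncard ≤ u ∧
      (2 * (Co w C).ncard ≤ u + j ∨ 6 * j * (Co w C).ncard + t * (u + 2) ≤ 6 * j * u + t * j) := by
    intro t
    induction t with
    | zero => exact ⟨C₀, le_rfl, hCH, hsp, by omega, hu.le.trans' le_rfl, Or.inr (by rw [← hu]; omega)⟩
    | succ t ih =>
      obtain ⟨C, h1, h2, h3, h4, h5, h6⟩ := ih
      rcases h6 with h6 | h6
      · exact ⟨C, h1, h2, h3, by omega, h5, Or.inl h6⟩
      by_cases hle : 2 * (Co w C).ncard ≤ u + j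
      · exact ⟨C, h1, h2, h3, by omega, h5, Or.inl hle⟩
      push Not at hle
      have hjpos : 0 < j := hj
      have hdm := Nat.div_add_mod (Co w C).ncard j
      have hml := Nat.mod_lt (Co w C).ncard hjpos
      have hmp := Nat.div_pos (show j ≤ (Co w C).ncard by omega) hjpos
      generalize (Co w C).ncard / j = m at hdm hmp
      generalize (Co w C).ncard % j = r at hdm hml
      obtain ⟨g, hg1, hg2, hg3⟩ := co_step (m := m) hF hs h2 hH h3 hmp (by omega)
      refine ⟨insert g C, h1.trans (Set.subset_insert _ _), disj_insert h2 hg2,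
        cc_compl_insert h3 g, ?_, by omega, Or.inr ?_⟩
      · rw [Set.ncard_insert_of_notMem hg1 (Set.toFinite _)]
        omega
      · set a := (Co w C).ncard
        set a' := (Co w (insert g C)).ncard
        have e1 : j * (3 * a' + m) ≤ j * (3 * a) := Nat.mul_le_mul_left _ hg3
        have e2 : 6 * j * a' + 2 * (j * m) ≤ 6 * j * a := by nlinarith
        have e3 : u + 3 ≤ 2 * (j * m) + j := by omega
        have e4 : (t + 1) * (u + 2) = t * (u + 2) + (u + 2) := by ring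
        have e5 : (t + 1) * j = t * j + j := by ring
        rw [e4, e5]
        omega
  obtain ⟨C, h1, h2, h3, h4, h5, h6⟩ := key (3 * j)
  refine ⟨C, h1, h2, h4, ?_⟩
  rcases h6 with h6 | h6
  · exact h6
  · have hjpos : 0 < 3 * j := by omega
    have e1 : 3 * j * (2 * (Co w C).ncard + (u + 2)) ≤ 3 * j * (2 * u + j) := by nlinarith
    have e2 := Nat.le_of_mul_le_mul_left e1 hjpos
    omega

/-- single steps until no coloop is left. -/
theorem co_finish {H : Set ι} (hHe : ∀ e, cc w (insert e H) = 0) : ∀ N : ℕ, ∀ C : Set ι,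
    Disjoint C H → cc w Cᶜ = 0 → (Co w C).ncard ≤ N →
      ∃ C' : Set ι, C ⊆ C' ∧ Disjoint C' H ∧ (∀ e ∈ C', cc w (C'ᶜ ∪ {e}) = 0) ∧
        C'.ncard ≤ C.ncard + N := by
  classical
  intro N
  have hfin : ∀ C : Set ι, (Co w C).ncard = 0 → ∀ e ∈ C, cc w (Cᶜ ∪ {e}) = 0 := by
    intro C h0 e he
    by_contra hne
    have h1 : e ∈ Co w C := ⟨he, hne⟩
    rw [(Set.ncard_eq_zero (Set.toFinite _)).1 h0] at h1
    exact h1
  induction N with
  | zero =>
    intro C h1 h2 h3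
    exact ⟨C, le_rfl, h1, hfin C (by omega), by omega⟩
  | succ N ih =>
    intro C h1 h2 h3
    rcases Nat.eq_zero_or_pos (Co w C).ncard with h | h
    · exact ⟨C, le_rfl, h1, hfin C h, by omega⟩
    · obtain ⟨g, hg1, hg2, hg3⟩ := co_single h2 hHe h
      obtain ⟨C', c1, c2, c3, c4⟩ := ih (insert g C) (disj_insert h1 hg2) (cc_compl_insert h2 g)
        (by omega)
      refine ⟨C', (Set.subset_insert _ _).trans c1, c2, c3, ?_⟩
      rw [Set.ncard_insert_of_notMem hg1 (Set.toFinite _)] at c4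
      omega

/-- iterated halving. -/
theorem halve_iter {j κ f s : ℕ} (hF : Fam w j κ f s) (hj : 1 ≤ j) (hs : s ≤ κ + f) {H : Set ι}
    (hH : 2 * H.ncard + 5 ≤ κ + f) {C₀ : Set ι} (hCH : Disjoint C₀ H) (hsp : cc w C₀ᶜ = 0)
    (n : ℕ) : ∃ C : Set ι, C₀ ⊆ C ∧ Disjoint C H ∧ C.ncard ≤ C₀.ncard + 3 * j * n ∧
      2 ^ n * (Co w C).ncard + j ≤ (Co w C₀).ncard + 2 ^ n * j := by
  induction n with
  | zero => exact ⟨C₀, le_rfl, hCH, by omega, by omega⟩
  | succ n ih =>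
    obtain ⟨C, h1, h2, h3, h4⟩ := ih
    have hsp' : cc w Cᶜ = 0 := by
      have := cc_mono (w := w) (Set.compl_subset_compl.2 h1)
      omega
    obtain ⟨C', c1, c2, c3, c4⟩ := halve hF hj hs h2 hH hsp'
    refine ⟨C', h1.trans c1, c2, by rw [Nat.mul_succ]; omega, ?_⟩
    have h5 : 2 ^ n * (2 * (Co w C').ncard) ≤ 2 ^ n * ((Co w C).ncard + j) :=
      Nat.mul_le_mul_left _ c4
    rw [pow_succ]
    nlinarith

/-- **COVER**, geometric version. -/
theorem coverG {j κ f s : ℕ} (hF : Fam w j κ f s) (hj : 1 ≤ j) (hs : s ≤ κ + f) {C₀ H : Set ι}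
    (hCH : Disjoint C₀ H) (hH : 2 * H.ncard + 5 ≤ κ + f) (hsp : cc w C₀ᶜ = 0)
    (hHe : ∀ e, cc w (insert e H) = 0) :
    ∃ C : Set ι, ∃ t : ℕ, C₀ ⊆ C ∧ Disjoint C H ∧ (∀ e ∈ C, cc w (Cᶜ ∪ {e}) = 0) ∧
      8192 * t ≤ C₀.ncard ∧ C.ncard ≤ C₀.ncard + t + 40 * j := by
  classical
  obtain ⟨C, h1, h2, h3, h4⟩ := halve_iter hF hj hs hH hCH hsp 13
  have hsp' : cc w Cᶜ = 0 := by
    have := cc_mono (w := w) (Set.compl_subset_compl.2 h1)
    omega
  obtain ⟨C', c1, c2, c3, c4⟩ := co_finish hHe _ C h2 hsp' le_rfl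
  have hCo : (Co w C₀).ncard ≤ C₀.ncard := Set.ncard_le_ncard (fun e he => he.1) (Set.toFinite _)
  norm_num at h4
  exact ⟨C', (Co w C).ncard - j, h1.trans c1, c2, c3, by omega, by omega⟩

end H30.LRG
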