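import Pool.Agent.H30.LR.Base

/-! CAP and FAIL with the two exclusions (draft). -/

set_option linter.unusedSectionVars false

open Module Submodule H15 H81.WK

namespace H30.LR

variable {ι : Type*} [Fintype ι] {E : Type*} [AddCommGroup E] [Module ℝ E]
  [FiniteDimensional ℝ E]

theorem cap {w : ι → E} {j κ f s : ℕ} (hF : Fam w j κ f s) {W : Set ι} (h : j ≤ cc w W) :
    κ + f + cc w W ≤ W.ncard + 1 := by
  have h1 := cc_add w W
  have hdim := hF.dim
  have hcard := hF.card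
  have h2 := hF.fc (sp w Wᶜ) (by omega)
  have h3 : (Wᶜ).ncard ≤ {i | w i ∈ sp w Wᶜ}.ncard :=
    Set.ncard_le_ncard (fun i hi => mem_sp hi) (Set.toFinite _)
  have h4 : W.ncard + (Wᶜ).ncard = Fintype.card ι := by
    rw [Set.ncard_add_ncard_compl, Nat.card_eq_fintype_card]
  omega

theorem fail_bound {w : ι → E} {j κ f s a : ℕ} (hF : Fam w j κ f s)
    (h3 : ∀ G : Submodule ℝ E, {i | w i ∈ G}.ncard ≤ 3 * finrank ℝ G)
    {P N A : Set ι} (hPN : Disjoint P N) (hsp : sp w (P ∪ N) = ⊤)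
    (hC : (P ∪ N).ncard = κ + j + 1 + a) (hP : P.ncard ≤ κ) (hN : N.ncard ≤ κ)
    (hA : A ⊆ (P ∪ N)ᶜ) (hf : j + 1 + A.ncard ≤ cc w (P ∪ A) + cc w (N ∪ A))
    (hx : 5 + 3 * a < 5 * f + s ∨ (2 ≤ f ∧ LinearIndepOn ℝ w N)) :
    cc w (P ∪ A) + 1 ≤ j ∧ cc w (N ∪ A) + 1 ≤ j ∧ A.ncard + 3 ≤ j := by
  classical
  have hdim := hF.dim
  have hcard := hF.card
  have hPA : Disjoint P A := by
    rw [Set.disjoint_left]; intro i hi hi'; exact hA hi' (Or.inl hi)
  have hNA : Disjoint N A := by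
    rw [Set.disjoint_left]; intro i hi hi'; exact hA hi' (Or.inr hi)
  have c1 : (P ∪ A).ncard = P.ncard + A.ncard :=
    Set.ncard_union_eq hPA (Set.toFinite _) (Set.toFinite _)
  have c2 : (N ∪ A).ncard = N.ncard + A.ncard :=
    Set.ncard_union_eq hNA (Set.toFinite _) (Set.toFinite _)
  have c3 : (P ∪ N).ncard = P.ncard + N.ncard :=
    Set.ncard_union_eq hPN (Set.toFinite _) (Set.toFinite _)
  have c4 : (P ∪ N).ncard + ((P ∪ N)ᶜ).ncard = Fintype.card ι := by
    rw [Set.ncard_add_ncard_compl, Nat.card_eq_fintype_card]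
  have c5 : ((P ∪ N)ᶜ \ A).ncard + A.ncard = ((P ∪ N)ᶜ).ncard :=
    Set.ncard_sdiff_add_ncard_of_subset hA (Set.toFinite _)
  have capP : j ≤ cc w (P ∪ A) → κ + f + cc w (P ∪ A) ≤ (P ∪ A).ncard + 1 := fun h => cap hF h
  have capN : j ≤ cc w (N ∪ A) → κ + f + cc w (N ∪ A) ≤ (N ∪ A).ncard + 1 := fun h => cap hF h
  have hnot : ¬ (j ≤ cc w (P ∪ A) ∧ j ≤ cc w (N ∪ A)) := by
    rintro ⟨hp, hn⟩
    have hp' := capP hp
    have hn' := capN hn
    have aP := cc_add w (P ∪ A)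
    have aN := cc_add w (N ∪ A)
    rcases hx with hx | ⟨hf2, hli⟩
    · -- the intersection
      have s1 : sp w (P ∪ A)ᶜ ⊔ sp w (N ∪ A)ᶜ = ⊤ := by
        rw [eq_top_iff, ← hsp, ← sp_union]
        refine sp_mono ?_
        rintro i (hi | hi)
        · right
          rintro (h | h)
          · exact Set.disjoint_left.1 hPN hi h
          · exact hA h (Or.inl hi)
        · left
          rintro (h | h)
          · exact Set.disjoint_left.1 hPN h hi
          · exact hA h (Or.inr hi)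
      have s2 := Submodule.finrank_sup_add_finrank_inf_eq (sp w (P ∪ A)ᶜ) (sp w (N ∪ A)ᶜ)
      rw [s1, finrank_top] at s2
      have s3 := h3 (sp w (P ∪ A)ᶜ ⊓ sp w (N ∪ A)ᶜ)
      have s4 : ((P ∪ N)ᶜ \ A).ncard ≤ {i | w i ∈ sp w (P ∪ A)ᶜ ⊓ sp w (N ∪ A)ᶜ}.ncard := by
        refine Set.ncard_le_ncard (fun i hi => ?_) (Set.toFinite _)
        obtain ⟨hi1, hi2⟩ := hi
        refine ⟨mem_sp ?_, mem_sp ?_⟩
        · rintro (h | h)
          exacts [hi1 (Or.inl h), hi2 h]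
        · rintro (h | h)
          exacts [hi1 (Or.inr h), hi2 h]
      omega
    · -- `N` independent
      have s1 : N ⊆ (P ∪ A)ᶜ := by
        intro i hi
        rintro (h | h)
        · exact Set.disjoint_left.1 hPN h hi
        · exact hA h (Or.inr hi)
      have s2 := Submodule.finrank_mono (sp_mono (v := w) s1)
      rw [finrank_sp_eq hli] at s2
      omega
  by_cases hp : j ≤ cc w (P ∪ A)
  · have hn : ¬ j ≤ cc w (N ∪ A) := fun h => hnot ⟨hp, h⟩
    have := capP hp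
    omega
  · by_cases hn : j ≤ cc w (N ∪ A)
    · have := capN hn
      omega
    · omega

end H30.LR
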