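import Pool.Agent.H81.LR.Cfun
import Pool.Agent.H81.WK.Cell

/-! FAIL with the two exclusions (modules M2 of the linear range). -/

set_option linter.unusedSectionVars false

open Module Submodule H15 H81.WK H81.LR

namespace H30.LRF

variable {ι : Type*} [Fintype ι] {E : Type*} [AddCommGroup E] [Module ℝ E]
  [FiniteDimensional ℝ E] {w : ι → E}

/-- **FAIL**. -/
theorem fail {j κ : ℕ} (hb : Bdd w κ) (hdim : finrank ℝ E = κ + j + 1) {P N : Set ι}
    (h : SVec w P N) (hsp : cc w (P ∪ N)ᶜ = 0) :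
    ∃ A : Set ι, A ⊆ (P ∪ N)ᶜ ∧ j + 1 + A.ncard ≤ cc w (P ∪ A) + cc w (N ∪ A) := by
  have hsp' : sp w (P ∪ N) = ⊤ := by
    have := cc_eq_zero_iff.1 hsp
    rwa [compl_compl] at this
  obtain ⟨E', hd, hE⟩ := H81.WK.exists_fail hb h hsp'
  refine ⟨(P ∪ N)ᶜ \ E', Set.sdiff_subset, ?_⟩
  have hPN := h.disjoint
  have e1 : (P ∪ ((P ∪ N)ᶜ \ E'))ᶜ = N ∪ E' := by
    ext i
    have a1 : i ∈ E' → i ∉ P ∪ N := fun hi hi' => Set.disjoint_left.1 hd hi hi'
    have a2 : i ∈ P → i ∉ N := fun hi hi' => Set.disjoint_left.1 hPN hi hi'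
    simp only [Set.mem_union, Set.mem_sdiff, Set.mem_compl_iff] at a1 ⊢
    tauto
  have e2 : (N ∪ ((P ∪ N)ᶜ \ E'))ᶜ = P ∪ E' := by
    ext i
    have a1 : i ∈ E' → i ∉ P ∪ N := fun hi hi' => Set.disjoint_left.1 hd hi hi'
    have a2 : i ∈ P → i ∉ N := fun hi hi' => Set.disjoint_left.1 hPN hi hi'
    simp only [Set.mem_union, Set.mem_sdiff, Set.mem_compl_iff] at a1 ⊢
    tauto
  have h1 := cc_add w (P ∪ ((P ∪ N)ᶜ \ E'))
  have h2 := cc_add w (N ∪ ((P ∪ N)ᶜ \ E'))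
  rw [e1] at h1
  rw [e2] at h2
  omega

theorem fail_bound {j κ f s a : ℕ} (hF : Fam w j κ f s)
    (h3 : ∀ G : Submodule ℝ E, {i | w i ∈ G}.ncard ≤ 3 * finrank ℝ G)
    {P N A : Set ι} (hPN : Disjoint P N) (hsp : sp w (P ∪ N) = ⊤)
    (hC : (P ∪ N).ncard = κ + j + 1 + a) (hP : P.ncard ≤ κ + f) (hN : N.ncard ≤ κ + f)
    (hA : A ⊆ (P ∪ N)ᶜ) (hf : j + 1 + A.ncard ≤ cc w (P ∪ A) + cc w (N ∪ A))
    (hx : 5 + 3 * a < 5 * f + s ∨ (2 ≤ f ∧ LinearIndepOn ℝ w N)) :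
    cc w (P ∪ A) + 1 ≤ j ∧ cc w (N ∪ A) + 1 ≤ j ∧ A.ncard + 3 ≤ j := by
  classical
  have hdim := hF.dim
  have hcard := hF.card
  have hPA : Disjoint P A := by
    rw [Set.disjoint_left]; intro i hi hi'; exact hA hi' (Or.inl hi)
  have hNA : Disjoint N A := by
    rw [Set.disjoint_left]; intro i hi hi'; exact hA hi' (Or.inr hi)
  have c1 : (P ∪ A).ncard = P.ncard + A.ncard :=
    Set.ncard_union_eq hPA (Set.toFinite _) (Set.toFinite _)
  have c2 : (N ∪ A).ncard = N.ncard + A.ncard :=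
    Set.ncard_union_eq hNA (Set.toFinite _) (Set.toFinite _)
  have c3 : (P ∪ N).ncard = P.ncard + N.ncard :=
    Set.ncard_union_eq hPN (Set.toFinite _) (Set.toFinite _)
  have c4 : (P ∪ N).ncard + ((P ∪ N)ᶜ).ncard = Fintype.card ι := by
    rw [Set.ncard_add_ncard_compl, Nat.card_eq_fintype_card]
  have c5 : ((P ∪ N)ᶜ \ A).ncard + A.ncard = ((P ∪ N)ᶜ).ncard :=
    Set.ncard_sdiff_add_ncard_of_subset hA (Set.toFinite _)
  have capP : j ≤ cc w (P ∪ A) → κ + f + cc w (P ∪ A) ≤ (P ∪ A).ncard + 1 := fun h => cap hF h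
  have capN : j ≤ cc w (N ∪ A) → κ + f + cc w (N ∪ A) ≤ (N ∪ A).ncard + 1 := fun h => cap hF h
  have hnot : ¬ (j ≤ cc w (P ∪ A) ∧ j ≤ cc w (N ∪ A)) := by
    rintro ⟨hp, hn⟩
    have hp' := capP hp
    have hn' := capN hn
    have aP := cc_add w (P ∪ A)
    have aN := cc_add w (N ∪ A)
    rcases hx with hx | ⟨hf2, hli⟩
    · -- the intersection
      have s1 : sp w (P ∪ A)ᶜ ⊔ sp w (N ∪ A)ᶜ = ⊤ := by
        rw [eq_top_iff, ← hsp, ← sp_union]
        refine sp_mono ?_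
        rintro i (hi | hi)
        · right
          rintro (h | h)
          · exact Set.disjoint_left.1 hPN hi h
          · exact hA h (Or.inl hi)
        · left
          rintro (h | h)
          · exact Set.disjoint_left.1 hPN h hi
          · exact hA h (Or.inr hi)
      have s2 := Submodule.finrank_sup_add_finrank_inf_eq (sp w (P ∪ A)ᶜ) (sp w (N ∪ A)ᶜ)
      rw [s1, finrank_top] at s2
      have s3 := h3 (sp w (P ∪ A)ᶜ ⊓ sp w (N ∪ A)ᶜ)
      have s4 : ((P ∪ N)ᶜ \ A).ncard ≤ {i | w i ∈ sp w (P ∪ A)ᶜ ⊓ sp w (N ∪ A)ᶜ}.ncard := by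
        refine Set.ncard_le_ncard (fun i hi => ?_) (Set.toFinite _)
        obtain ⟨hi1, hi2⟩ := hi
        refine ⟨mem_sp ?_, mem_sp ?_⟩
        · rintro (h | h)
          exacts [hi1 (Or.inl h), hi2 h]
        · rintro (h | h)
          exacts [hi1 (Or.inr h), hi2 h]
      omega
    · -- `N` independent
      have s1 : N ⊆ (P ∪ A)ᶜ := by
        intro i hi
        rintro (h | h)
        · exact Set.disjoint_left.1 hPN h hi
        · exact hA h (Or.inr hi)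
      have s2 := Submodule.finrank_mono (sp_mono (v := w) s1)
      rw [finrank_sp_eq hli] at s2
      omega
  by_cases hp : j ≤ cc w (P ∪ A)
  · have hn : ¬ j ≤ cc w (N ∪ A) := fun h => hnot ⟨hp, h⟩
    have := capP hp
    omega
  · by_cases hn : j ≤ cc w (N ∪ A)
    · have := capN hn
      omega
    · omega

/-- **FAIL with exclusions**. -/
theorem fail_good {j κ f s a : ℕ} (hT : TFam w j κ f s) {P N : Set ι}
    (h : SVec w P N) (hsp : cc w (P ∪ N)ᶜ = 0) (hC : (P ∪ N).ncard = κ + j + 1 + a)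
    (hP : P.ncard ≤ κ + f) (hN : N.ncard ≤ κ + f)
    (hx : 5 + 3 * a < 5 * f + s ∨ (2 ≤ f ∧ LinearIndepOn ℝ w N)) :
    ∃ A : Set ι, A ⊆ (P ∪ N)ᶜ ∧ j + 1 + A.ncard ≤ cc w (P ∪ A) + cc w (N ∪ A) ∧
      cc w (P ∪ A) < j ∧ cc w (N ∪ A) < j := by
  obtain ⟨A, hA, hf⟩ := fail hT.bdd hT.fam.dim h hsp
  have hsp' : sp w (P ∪ N) = ⊤ := by
    have := cc_eq_zero_iff.1 hsp
    rwa [compl_compl] at this
  obtain ⟨h1, h2, -⟩ := fail_bound hT.fam hT.three h.disjoint hsp' hC hP hN hA hf hx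
  exact ⟨A, hA, hf, h1, h2⟩

end H30.LRF
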