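import Pool.Agent.H81.LR.Cfun

/-! The maximiser and the greedy set (module M4 of the linear range). -/

set_option linter.unusedSectionVars false

open Module Submodule H15 H81.WK H81.LR

namespace H30.LRF

variable {ι : Type*} [Fintype ι] {E : Type*} [AddCommGroup E] [Module ℝ E]
  [FiniteDimensional ℝ E] {w : ι → E}

theorem exists_Kmax (w : ι → E) (B : ℕ) : ∃ D : Set ι, Kmax w B D := by
  classical
  obtain ⟨Kd, hKd, hmax⟩ := Set.exists_max_image {L : Set ι | L.ncard ≤ B}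
    (fun L => (3 * cc w L : ℤ) - L.ncard) (Set.toFinite _) ⟨∅, by simp⟩
  refine ⟨Kd, hKd, fun L hL => ?_⟩
  have := hmax L hL
  omega

theorem greedy_step {Kd K H : Set ι} {B x n : ℕ}
    (hmax : ∀ L : Set ι, L.ncard ≤ B → 3 * cc w L + Kd.ncard ≤ 3 * cc w Kd + L.ncard)
    (hK : Kd ⊆ K) (hKB : K.ncard ≤ B) (hx : cc w K = cc w Kd + x)
    (hB : Kd.ncard + 3 * n + 2 ≤ B) (hn : 2 * n < x)
    (hH : H ⊆ K \ Kd) (hHn : H.ncard = n) (h1 : cc w (K \ H) + n = cc w K)
    (h2 : ∀ e, cc w (insert e (Kd ∪ H)) = cc w Kd) :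
    ∃ y, y ∈ K \ Kd ∧ y ∉ H ∧ cc w (K \ insert y H) + (n + 1) = cc w K ∧
      ∀ e, cc w (insert e (Kd ∪ insert y H)) = cc w Kd := by
  classical
  have hHK : H ⊆ K := fun i hi => (hH hi).1
  have hdis : ∀ i ∈ H, i ∉ Kd := fun i hi => (hH hi).2
  obtain ⟨L, ⟨hL1, hL2, hL3⟩, hLmin⟩ := Set.exists_min_image
    {L : Set ι | Kd ⊆ L ∧ L ⊆ K \ H ∧ cc w L = cc w (K \ H)} Set.ncard (Set.toFinite _)
    ⟨K \ H, fun i hi => ⟨hK hi, fun h => hdis i h hi⟩, le_rfl, rfl⟩
  obtain ⟨L', ⟨hM1, hM2, hM3⟩, hMmax⟩ := Set.exists_max_image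
    {M : Set ι | Kd ∪ H ⊆ M ∧ M.ncard + 2 * cc w Kd ≤ Kd.ncard + n + 2 * cc w M ∧ M.ncard ≤ B}
    Set.ncard (Set.toFinite _)
    ⟨Kd ∪ H, le_rfl, by
      have a1 := Set.ncard_union_le Kd H
      have a2 : cc w Kd ≤ cc w (Kd ∪ H) := cc_mono Set.subset_union_left
      omega, by
      have a1 := Set.ncard_union_le Kd H
      omega⟩
  have b1 := hmax L' hM3
  have b2 : L'.ncard ≤ Kd.ncard + 3 * n := by omega
  have hLB : L.ncard ≤ B := by
    have := Set.ncard_le_ncard (hL2.trans Set.sdiff_subset) (Set.toFinite K)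
    omega
  have b3 := hmax L hLB
  have hLH : Disjoint L H := by
    rw [Set.disjoint_left]; intro i hi hi'; exact (hL2 hi).2 hi'
  obtain ⟨y, hyL, hyL'⟩ : ∃ y ∈ L, y ∉ L' := by
    by_contra hcon
    push Not at hcon
    have a1 : L ∪ H ⊆ L' := by
      rintro i (hi | hi)
      exacts [hcon i hi, hM1 (Or.inr hi)]
    have a2 := Set.ncard_le_ncard a1 (Set.toFinite _)
    rw [Set.ncard_union_eq hLH (Set.toFinite _) (Set.toFinite _)] at a2
    omega
  have hyK : y ∉ Kd := fun h => hyL' (hM1 (Or.inl h))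
  have hyH : y ∉ H := fun h => hyL' (hM1 (Or.inr h))
  have hyKK : y ∈ K := (hL2 hyL).1
  refine ⟨y, ⟨hyKK, hyK⟩, hyH, ?_, ?_⟩
  · -- the rank drops
    have c1 : cc w (L \ {y}) + 1 ≤ cc w L := by
      have d1 : cc w (L \ {y}) ≤ cc w L := cc_mono Set.sdiff_subset
      rcases Nat.lt_or_ge (cc w (L \ {y})) (cc w L) with h | h
      · exact h
      · exfalso
        have d2 := hLmin (L \ {y}) ⟨fun i hi => ⟨hL1 hi, fun h' => hyK (h' ▸ hi)⟩,
          fun i hi => hL2 hi.1, by omega⟩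
        have d3 := Set.ncard_sdiff_singleton_lt_of_mem hyL (Set.toFinite _)
        omega
    have e1 : K \ insert y H = (K \ H) \ {y} := by
      ext i; simp only [Set.mem_sdiff, Set.mem_insert_iff, Set.mem_singleton_iff]; tauto
    have c2 := cc_super w L ((K \ H) \ {y})
    have c3 : L ∪ (K \ H) \ {y} ⊆ K \ H := by
      rintro i (hi | hi)
      exacts [hL2 hi, hi.1]
    have c4 : L ∩ ((K \ H) \ {y}) ⊆ L \ {y} := fun i hi => ⟨hi.1, hi.2.2⟩
    have c5 := cc_mono (w := w) c3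
    have c6 := cc_mono (w := w) c4
    have c7 := cc_insert_le (w := w) y ((K \ H) \ {y})
    have c8 : insert y ((K \ H) \ {y}) = K \ H := by
      ext i
      simp only [Set.mem_sdiff, Set.mem_insert_iff, Set.mem_singleton_iff]
      by_cases h : i = y
      · subst h; simp [hyKK, hyH]
      · simp [h]
    rw [c8] at c7
    rw [e1]
    omega
  · intro e
    have c0 : cc w Kd ≤ cc w (insert e (Kd ∪ insert y H)) :=
      cc_mono (fun i hi => Or.inr (Or.inl hi))
    by_contra hne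
    set Y : Set ι := insert e (Kd ∪ insert y H) with hY
    have c1 := cc_super w L' Y
    have c2 : L' ∩ Y ⊆ insert e (Kd ∪ H) := by
      rintro i ⟨hi, hi' | hi' | hi' | hi'⟩
      · exact Or.inl hi'
      · exact Or.inr (Or.inl hi')
      · exact absurd (hi' ▸ hi) hyL'
      · exact Or.inr (Or.inr hi')
    have c3 := cc_mono (w := w) c2
    rw [h2 e] at c3
    have c4 : L' ∪ Y = insert e (insert y L') := by
      ext i
      have := @hM1 i
      simp only [hY, Set.mem_union, Set.mem_insert_iff] at this ⊢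
      tauto
    have c5 : (L' ∪ Y).ncard ≤ L'.ncard + 2 := by
      rw [c4]
      have a1 := Set.ncard_insert_le e (insert y L')
      have a2 := Set.ncard_insert_le y L'
      omega
    have c6 := hMmax (L' ∪ Y) ⟨fun i hi => Or.inl (hM1 hi), by omega, by omega⟩
    have c7 : L'.ncard + 1 ≤ (L' ∪ Y).ncard := by
      rw [← Set.ncard_insert_of_notMem hyL' (Set.toFinite _)]
      refine Set.ncard_le_ncard ?_ (Set.toFinite _)
      rintro i (hi | hi)
      · exact Or.inr (Or.inr (Or.inr (Or.inl hi)))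
      · exact Or.inl hi
    omega

/-- **GREEDY**. -/
theorem greedy_aux {Kd K : Set ι} {B x : ℕ}
    (hmax : ∀ L : Set ι, L.ncard ≤ B → 3 * cc w L + Kd.ncard ≤ 3 * cc w Kd + L.ncard)
    (hK : Kd ⊆ K) (hKB : K.ncard ≤ B) (hx : cc w K = cc w Kd + x)
    (hB : Kd.ncard + 3 * ((x + 1) / 2) + 2 ≤ B) :
    ∃ H : Set ι, H ⊆ K \ Kd ∧ H.ncard = (x + 1) / 2 ∧ cc w (K \ H) + H.ncard = cc w K ∧
      ∀ e, cc w (insert e (Kd ∪ H)) = cc w Kd := by
  classical
  have key : ∀ n, n ≤ (x + 1) / 2 → ∃ H : Set ι, H ⊆ K \ Kd ∧ H.ncard = n ∧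
      cc w (K \ H) + n = cc w K ∧ ∀ e, cc w (insert e (Kd ∪ H)) = cc w Kd := by
    intro n
    induction n with
    | zero =>
      intro _
      refine ⟨∅, Set.empty_subset _, Set.ncard_empty _, by rw [Set.sdiff_empty, add_zero], fun e => ?_⟩
      rw [Set.union_empty]
      have a1 := Set.ncard_insert_le e Kd
      have a2 := hmax (insert e Kd) (by omega)
      have a3 : cc w Kd ≤ cc w (insert e Kd) := cc_mono (Set.subset_insert _ _)
      omega
    | succ n ih =>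
      intro hn
      obtain ⟨H, hH, hHn, h1, h2⟩ := ih (by omega)
      obtain ⟨y, hy, hyH, h3, h4⟩ := greedy_step hmax hK hKB hx (by omega) (by omega) hH hHn h1 h2
      refine ⟨insert y H, Set.insert_subset hy hH, ?_, h3, h4⟩
      rw [Set.ncard_insert_of_notMem hyH (Set.toFinite _), hHn]
  obtain ⟨H, hH, hHn, h1, h2⟩ := key _ le_rfl
  exact ⟨H, hH, hHn, by omega, h2⟩


/-- **GREEDY**. -/
theorem greedy {B : ℕ} {D K : Set ι} (hD : Kmax w B D) (hDK : D ⊆ K) (hK : K.ncard ≤ B)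
    (hB : D.ncard + 3 * cc w K + 5 ≤ B) :
    ∃ H : Set ι, H ⊆ K \ D ∧ 2 * H.ncard ≤ cc w K + 1 ∧
      2 * cc w (K \ H) ≤ cc w K + cc w D ∧ ∀ e, cc w (insert e (D ∪ H)) = cc w D := by
  have hx := cc_mono (w := w) hDK
  obtain ⟨x, hx⟩ := Nat.exists_eq_add_of_le hx
  obtain ⟨H, h1, h2, h3, h4⟩ := greedy_aux hD.max hDK hK hx (by omega)
  exact ⟨H, h1, by omega, by omega, h4⟩

end H30.LRF
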